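import Pool.Agent.H656R2.AK.TQPoly

/-!
# Polynomial space is closed under complement and intersection
-/

namespace Pool.Agent.R577.Reset

open Pool.Agent.NPC Pool.Agent.H623R2.PS Pool.Agent.H656R2.AK

theorem evq_congr (qs : List Bool) {φ ψ : List Bool → Bool}
    (h : ∀ u, u.length = qs.length → φ u = ψ u) : evq qs φ = evq qs ψ := by
  induction qs generalizing φ ψ with
  | nil => exact h [] rfl
  | cons q qs ih =>
    rw [evq, evq, ih (ψ := fun u => ψ (false :: u)) (fun u hu => h _ (by simp [hu])),
      ih (ψ := fun u => ψ (true :: u)) (fun u hu => h _ (by simp [hu]))]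

theorem evq_append (qs qs' : List Bool) (φ : List Bool → Bool) :
    evq (qs ++ qs') φ = evq qs (fun u => evq qs' (fun v => φ (u ++ v))) := by
  induction qs generalizing φ with
  | nil => rfl
  | cons q qs ih =>
    rw [List.cons_append, evq, evq, ih, ih]
    rfl

theorem evq_and' (g : Bool) (qs : List Bool) (φ : List Bool → Bool) :
    evq qs (fun u => φ u && g) = (evq qs φ && g) := by
  have h := evq_and g qs φ
  have e : (fun u => φ u && g) = fun u => g && φ u := by funext u; exact Bool.and_comm _ _
  rw [e, h, Bool.and_comm]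

theorem evq_not (qs : List Bool) (φ : List Bool → Bool) :
    evq (qs.map not) (fun u => !φ u) = !evq qs φ := by
  induction qs generalizing φ with
  | nil => rfl
  | cons q qs ih =>
    rw [List.map_cons, evq, evq]
    have h1 := ih (fun u => φ (false :: u))
    have h2 := ih (fun u => φ (true :: u))
    rw [h1, h2]
    cases q <;> simp

theorem poly_evc : NPC.Poly (fun p : List (List (Bool × ℕ)) × List Bool => evc p.2 p.1) := by
  unfold evc
  refine NPC.Poly.all (l := fun p : List (List (Bool × ℕ)) × List Bool => p.1)
    (p := fun p c => c.any fun l => p.2.getD l.2 false == l.1) (by fun_prop) ?_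
  refine NPC.Poly.any (l := fun p : (List (List (Bool × ℕ)) × List Bool) × List (Bool × ℕ) => p.2)
    (p := fun p l => p.1.2.getD l.2 false == l.1) (by fun_prop) ?_
  have h : NPC.Poly (fun p : ((List (List (Bool × ℕ)) × List Bool) × List (Bool × ℕ)) × (Bool × ℕ) =>
      decide (p.1.1.2.getD p.2.2 false = p.2.1)) := by fun_prop
  exact h.congr fun p => by
    cases p.1.1.2.getD p.2.2 false <;> cases p.2.1 <;> rfl

theorem inPSPACE_compl {L : Set (List Bool)} (hL : InPSPACE L) : InPSPACE Lᶜ := by
  obtain ⟨f, hf, -, h⟩ := qbf_hard hL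
  refine inPSPACE_of_evq (α := QF) (init := f) hf (qs := fun x => (f x).1.map not) (by fun_prop)
    (φ := fun Q u => !evc u Q.2) ?_ ?_
  · have h2 : NPC.Poly (fun p : QF × List Bool => evc p.2 p.1.2) :=
      poly_evc.comp (f := fun p : QF × List Bool => (p.1.2, p.2)) (by fun_prop)
    fun_prop
  · intro x
    rw [Set.mem_compl_iff, h x, evq_not]
    simp

theorem inPSPACE_inter {L L' : Set (List Bool)} (hL : InPSPACE L) (hL' : InPSPACE L') :
    InPSPACE (L ∩ L') := by
  obtain ⟨f, hf, hwf, h⟩ := qbf_hard hL
  obtain ⟨g, hg, -, h'⟩ := qbf_hard hL'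
  refine inPSPACE_of_evq (α := QF × QF) (init := fun x => (f x, g x)) (by fun_prop)
    (qs := fun x => (f x).1 ++ (g x).1) (by fun_prop)
    (φ := fun Q u => evc u Q.1.2 &&
      evc u (Q.2.2.map fun c => c.map fun l => (l.1, Q.1.1.length + l.2))) ?_ ?_
  · have h1 : NPC.Poly (fun p : (QF × QF) × List Bool => evc p.2 p.1.1.2) :=
      poly_evc.comp (f := fun p : (QF × QF) × List Bool => (p.1.1.2, p.2)) (by fun_prop)
    have h2 : NPC.Poly (fun p : (QF × QF) × List Bool =>
        evc p.2 (p.1.2.2.map fun c => c.map fun l => (l.1, p.1.1.1.length + l.2))) :=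
      poly_evc.comp (f := fun p : (QF × QF) × List Bool =>
        (p.1.2.2.map fun c => c.map fun l => (l.1, p.1.1.1.length + l.2), p.2)) (by fun_prop)
    fun_prop
  · intro x
    rw [Set.mem_inter_iff, h x, h' x, evq_append]
    have e : evq (f x).1 (fun u => evq (g x).1 (fun v => evc (u ++ v) (f x).2 &&
        evc (u ++ v) ((g x).2.map fun c => c.map fun l => (l.1, (f x).1.length + l.2)))) =
        evq (f x).1 (fun u => evc u (f x).2 && evq (g x).1 (fun v => evc v (g x).2)) := by
      refine evq_congr _ fun u hu => ?_
      rw [← evq_and]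
      refine evq_congr _ fun v _ => ?_
      congr 1
      · refine evc_congr fun c hc l hl => ?_
        have := hwf x c hc l hl
        rw [List.getD_append _ _ _ _ (by omega)]
      · unfold evc
        rw [List.all_map]
        congr 1
        funext c
        simp only [Function.comp, List.any_map]
        congr 1
        funext l
        simp only [Function.comp]
        rw [List.getD_append_right _ _ _ _ (by omega)]
        congr 2
        omega
    rw [e, evq_and', Bool.and_eq_true]

end Pool.Agent.R577.Reset
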