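import Pool.Agent.H623R2.PS.Defs

/-!
# Reset Mealy automata
-/

namespace Pool.Agent.R577.Reset

open Pool.Agent.NPC

/-- A Mealy automaton with state set `Fin n`, alphabet `Fin m`, transition map `δ` and output map
`out`. -/
structure Mealy where
  /-- the number of states -/
  n : ℕ
  /-- the number of letters -/
  m : ℕ
  /-- the transition map -/
  δ : Fin n → Fin m → Fin n
  /-- the output map -/
  out : Fin n → Fin m → Fin m

/-- `q · u`: the state reached from `q` after reading `u`. -/
def Mealy.run (A : Mealy) (q : Fin A.n) (u : List (Fin A.m)) : Fin A.n := u.foldl A.δ q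

/-- `q ∘ u`: the output of the automaton which reads `u`, starting in the state `q`. -/
def Mealy.output (A : Mealy) : Fin A.n → List (Fin A.m) → List (Fin A.m)
  | _, [] => []
  | q, a :: u => A.out q a :: A.output (A.δ q a) u

/-- `u` is a synchronizing word: the set `Q · u` has exactly one element. -/
def Mealy.Sync (A : Mealy) (u : List (Fin A.m)) : Prop :=
  (Finset.univ.image fun q => A.run q u).card = 1

/-- `A` is reset: it has a synchronizing word, and for every state `q` the map `u ↦ q ∘ u` maps
synchronizing words to synchronizing words. -/
def IsReset (A : Mealy) : Prop :=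
  (∃ u, A.Sync u) ∧ ∀ (q : Fin A.n) (u : List (Fin A.m)), A.Sync u → A.Sync (A.output q u)

/-- A Mealy automaton is encoded by the numbers of its states and letters and by the tables of
`δ` and `out` (one row for each state). -/
def Mealy.code (A : Mealy) : ℕ × ℕ × List (List ℕ) × List (List ℕ) :=
  (A.n, A.m, (List.finRange A.n).map fun q => (List.finRange A.m).map fun a => (A.δ q a).val,
    (List.finRange A.n).map fun q => (List.finRange A.m).map fun a => (A.out q a).val)

theorem Mealy.code_injective : Function.Injective Mealy.code := by
  rintro ⟨n, m, δ, o⟩ ⟨n', m', δ', o'⟩ h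
  simp only [Mealy.code, Prod.mk.injEq] at h
  obtain ⟨rfl, rfl, h1, h2⟩ := h
  have e1 : δ = δ' := by
    funext q a
    have h3 := (List.map_inj_left.1 h1) q (List.mem_finRange q)
    have h4 := (List.map_inj_left.1 h3) a (List.mem_finRange a)
    exact Fin.ext h4
  have e2 : o = o' := by
    funext q a
    have h3 := (List.map_inj_left.1 h2) q (List.mem_finRange q)
    have h4 := (List.map_inj_left.1 h3) a (List.mem_finRange a)
    exact Fin.ext h4
  rw [e1, e2]

instance : TEnc Mealy :=
  ⟨fun A => toT A.code, fun _ _ h => Mealy.code_injective (TEnc.inj h)⟩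

end Pool.Agent.R577.Reset
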