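import Pool.Agent.H623R2.PS.RulesPoly
import Pool.Agent.R577.Reset.Defs

/-!
# The reduction from rule systems to Mealy automata which are not reset
-/

namespace Pool.Agent.R577.Reset

open Pool.Agent.NPC Pool.Agent.H623R2.PS

/-- The transition function: states `0` (checker), `1` (target), `2` (dead) and
`3 + (t * (V + 1) + v)` for the token `t` with value `v`; letters `0` (all to the target),
`1` (start), `2` (finish) and `3 + i` for the `i`-th rule. -/
def dlt (S : RS) (s a : ℕ) : ℕ :=
  if a = 0 then 1
  else if a = 1 then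
    (if s = 0 then 0 else if s < 3 then 1 else
      3 + (((s - 3) / (S.1 + 1)) * (S.1 + 1) + min (S.2.1.getD ((s - 3) / (S.1 + 1)) 0) S.1))
  else if a = 2 then
    (if s = 0 then 1 else if s < 3 then s else
      if okf S.1 S.2.2.2 ((s - 3) / (S.1 + 1)) ((s - 3) % (S.1 + 1)) = true then 1 else 2)
  else
    (if s < 3 then s else
      3 + (((s - 3) / (S.1 + 1)) * (S.1 + 1) +
        min (tok S.1 (S.2.2.1.getD (a - 3) []) ((s - 3) / (S.1 + 1)) ((s - 3) % (S.1 + 1))) S.1))

/-- The output function. -/
def otp (s a : ℕ) : ℕ := if s = 0 ∧ ¬ a = 0 then 2 else 0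

/-- The number of states. -/
def nsm (S : RS) : ℕ := 3 + S.2.1.length * (S.1 + 1)

/-- The state of the token `t` with value `v`. -/
def sm (S : RS) (t v : ℕ) : ℕ := 3 + (t * (S.1 + 1) + v)

theorem sm_lt {S : RS} {t v : ℕ} (ht : t < S.2.1.length) (hv : v ≤ S.1) : sm S t v < nsm S := by
  unfold sm nsm
  have h1 : (t + 1) * (S.1 + 1) ≤ S.2.1.length * (S.1 + 1) := Nat.mul_le_mul_right _ ht
  have h2 : (t + 1) * (S.1 + 1) = t * (S.1 + 1) + (S.1 + 1) := by ring
  omega

theorem exists_sm {S : RS} {s : ℕ} (h : s < nsm S) (h' : ¬ s < 3) :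
    ∃ t v, t < S.2.1.length ∧ v ≤ S.1 ∧ s = sm S t v := by
  refine ⟨(s - 3) / (S.1 + 1), (s - 3) % (S.1 + 1), ?_, ?_, ?_⟩
  · rw [Nat.div_lt_iff_lt_mul (by omega)]
    unfold nsm at h
    omega
  · have := Nat.mod_lt (s - 3) (show 0 < S.1 + 1 by omega)
    omega
  · unfold sm
    have := Nat.div_add_mod' (s - 3) (S.1 + 1)
    omega

theorem sm_div {S : RS} {t v : ℕ} (hv : v ≤ S.1) : (sm S t v - 3) / (S.1 + 1) = t := by
  unfold sm
  rw [Nat.add_sub_cancel_left, mul_comm, Nat.mul_add_div (by omega), Nat.div_eq_of_lt (by omega)]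
  rfl

theorem sm_mod {S : RS} {t v : ℕ} (hv : v ≤ S.1) : (sm S t v - 3) % (S.1 + 1) = v := by
  unfold sm
  rw [Nat.add_sub_cancel_left, mul_comm, Nat.mul_add_mod, Nat.mod_eq_of_lt (by omega)]

theorem sm_not_lt {S : RS} {t v : ℕ} : ¬ sm S t v < 3 := by unfold sm; omega
theorem sm_ne {S : RS} {t v : ℕ} : ¬ sm S t v = 0 := by unfold sm; omega

theorem dlt_zero (S : RS) (s : ℕ) : dlt S s 0 = 1 := rfl

theorem dlt_start {S : RS} {t v : ℕ} (hv : v ≤ S.1) :
    dlt S (sm S t v) 1 = sm S t (min (S.2.1.getD t 0) S.1) := by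
  unfold dlt
  rw [if_neg (by omega), if_pos rfl, if_neg sm_ne, if_neg sm_not_lt, sm_div hv]
  rfl

theorem dlt_fin {S : RS} {t v : ℕ} (hv : v ≤ S.1) :
    dlt S (sm S t v) 2 = if okf S.1 S.2.2.2 t v = true then 1 else 2 := by
  unfold dlt
  rw [if_neg (by omega), if_neg (by omega), if_pos rfl, if_neg sm_ne, if_neg sm_not_lt, sm_div hv,
    sm_mod hv]

theorem dlt_rule {S : RS} {t v i : ℕ} (hv : v ≤ S.1) :
    dlt S (sm S t v) (3 + i) = sm S t (min (tok S.1 (S.2.2.1.getD i []) t v) S.1) := by
  unfold dlt
  rw [if_neg (by omega), if_neg (by omega), if_neg (by omega), if_neg sm_not_lt, sm_div hv,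
    sm_mod hv, Nat.add_sub_cancel_left]
  rfl

theorem dlt_lt {S : RS} {s a : ℕ} (hs : s < nsm S) : dlt S s a < nsm S := by
  have h3 : 3 ≤ nsm S := by unfold nsm; omega
  by_cases h : s < 3
  · unfold dlt
    split_ifs <;> omega
  · obtain ⟨t, v, ht, hv, rfl⟩ := exists_sm hs h
    rcases Nat.lt_or_ge a 3 with ha | ha
    · interval_cases a
      · rw [dlt_zero]; omega
      · rw [dlt_start hv]; exact sm_lt ht (min_le_right _ _)
      · rw [dlt_fin hv]; split_ifs <;> omega
    · obtain ⟨i, rfl⟩ := Nat.exists_eq_add_of_le ha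
      rw [dlt_rule hv]; exact sm_lt ht (min_le_right _ _)

/-- The Mealy automaton of a rule system. -/
def toMealy (S : RS) : Mealy where
  n := nsm S
  m := 3 + S.2.2.1.length
  δ q a := ⟨dlt S q.val a.val, dlt_lt q.2⟩
  out q a := ⟨otp q.val a.val, by unfold otp; split_ifs <;> omega⟩

/-- Running the automaton on numbers. -/
def runM (S : RS) (s : ℕ) (w : List ℕ) : ℕ := w.foldl (dlt S) s

theorem run_val (S : RS) (q : Fin (toMealy S).n) (w : List (Fin (toMealy S).m)) :
    ((toMealy S).run q w).val = runM S q.val (w.map Fin.val) := by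
  induction w generalizing q with
  | nil => rfl
  | cons a w ih => exact ih _

theorem runM_append (S : RS) (s : ℕ) (u v : List ℕ) : runM S s (u ++ v) = runM S (runM S s u) v :=
  List.foldl_append ..

theorem runM_one {S : RS} {w : List ℕ} : runM S 1 w = 1 := by
  induction w with
  | nil => rfl
  | cons a w ih =>
    have : dlt S 1 a = 1 := by
      unfold dlt
      split_ifs <;> omega
    show runM S (dlt S 1 a) w = 1
    rw [this, ih]

theorem runM_lt {S : RS} (w : List ℕ) {s : ℕ} (hs : s < nsm S) : runM S s w < nsm S := by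
  induction w generalizing s with
  | nil => exact hs
  | cons a w ih => exact ih (dlt_lt hs)

theorem sync_iff (S : RS) (w : List (Fin (toMealy S).m)) :
    (toMealy S).Sync w ↔ ∀ s < nsm S, runM S s (w.map Fin.val) = 1 := by
  have h3 : 1 < nsm S := by unfold nsm; omega
  unfold Mealy.Sync
  rw [Finset.card_eq_one]
  constructor
  · rintro ⟨p, hp⟩ s hs
    have h1 : (toMealy S).run ⟨s, hs⟩ w ∈ ({p} : Finset (Fin (toMealy S).n)) := by
      rw [← hp]; exact Finset.mem_image_of_mem _ (Finset.mem_univ _)
    have h2 : (toMealy S).run ⟨1, h3⟩ w ∈ ({p} : Finset (Fin (toMealy S).n)) := by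
      rw [← hp]; exact Finset.mem_image_of_mem _ (Finset.mem_univ _)
    rw [Finset.mem_singleton] at h1 h2
    have h4 := congrArg Fin.val (h1.trans h2.symm)
    rw [run_val, run_val] at h4
    exact h4.trans runM_one
  · intro h
    refine ⟨⟨1, h3⟩, ?_⟩
    ext q
    rw [Finset.mem_image, Finset.mem_singleton]
    constructor
    · rintro ⟨s, -, rfl⟩
      exact Fin.ext (by rw [run_val]; exact h _ s.2)
    · rintro rfl
      exact ⟨⟨1, h3⟩, Finset.mem_univ _, Fin.ext (by rw [run_val]; exact h 1 h3)⟩

/-- A word which contains the letter `0` is synchronizing. -/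
theorem runM_of_mem {S : RS} {w : List ℕ} (h : 0 ∈ w) (s : ℕ) : runM S s w = 1 := by
  obtain ⟨u, v, rfl⟩ := List.append_of_mem h
  rw [runM_append]
  exact runM_one

/-- A word of letters `2` is not synchronizing. -/
theorem runM_two {S : RS} (k : ℕ) : runM S 2 (List.replicate k 2) = 2 := by
  induction k with
  | zero => rfl
  | succ k ih => exact ih

/-- Running the rules on a token. -/
theorem runM_rules {S : RS} (hS : RSwf S) {w : List ℕ}
    (hw : ∀ i ∈ w, i < S.2.2.1.length) {t v : ℕ} (hv : v ≤ S.1) :
    runM S (sm S t v) (w.map (3 + ·)) = sm S t (runT S w t v) := by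
  induction w generalizing v with
  | nil => rfl
  | cons a w ih =>
    have h1 := tok_le hS (getD_mem (hw a (by simp))) (t := t) hv
    have : runM S (sm S t v) ((a :: w).map (3 + ·)) =
        runM S (dlt S (sm S t v) (3 + a)) (w.map (3 + ·)) := rfl
    rw [this, dlt_rule hv, min_eq_left h1, ih (fun i hi => hw i (List.mem_cons_of_mem _ hi)) h1]
    rfl

theorem initv_le {S : RS} (hS : RSwf S) {t : ℕ} (ht : t < S.2.1.length) :
    S.2.1.getD t 0 ≤ S.1 := by
  rw [List.getD_eq_getElem _ _ ht]
  exact (hS.1 _ (List.getElem_mem ht)).le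

/-- Words of start letters and rules: all tokens behave as if only a word of rules had been applied
to the initial value, for a suitable value of the token at the beginning. -/
theorem exists_rules {S : RS} (hS : RSwf S) (u : List ℕ)
    (hu : ∀ a ∈ u, a = 1 ∨ (3 ≤ a ∧ a < 3 + S.2.2.1.length)) :
    ∃ w : List ℕ, (∀ i ∈ w, i < S.2.2.1.length) ∧ ∀ t < S.2.1.length,
      ∃ v ≤ S.1, runM S (sm S t v) u = sm S t (runT S w t (S.2.1.getD t 0)) := by
  induction u using List.reverseRecOn with
  | nil => exact ⟨[], by simp, fun t ht => ⟨_, initv_le hS ht, rfl⟩⟩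
  | append_singleton u a ih =>
    obtain ⟨w, hw, h⟩ := ih fun b hb => hu b (List.mem_append_left _ hb)
    rcases hu a (by simp) with rfl | ⟨h1, h2⟩
    · refine ⟨[], by simp, fun t ht => ?_⟩
      obtain ⟨v, hv, h3⟩ := h t ht
      refine ⟨v, hv, ?_⟩
      rw [runM_append, h3]
      show dlt S _ 1 = _
      rw [dlt_start (runT_le hS hw (initv_le hS ht)), min_eq_left (initv_le hS ht)]
      rfl
    · obtain ⟨i, rfl⟩ := Nat.exists_eq_add_of_le h1
      have hi : i < S.2.2.1.length := by omega
      refine ⟨w ++ [i], ?_, fun t ht => ?_⟩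
      · intro j hj
        rcases List.mem_append.1 hj with hj | hj
        · exact hw j hj
        · rw [List.mem_singleton] at hj; omega
      · obtain ⟨v, hv, h3⟩ := h t ht
        refine ⟨v, hv, ?_⟩
        have h4 := runT_le hS hw (t := t) (initv_le hS ht)
        rw [runM_append, h3]
        show dlt S _ (3 + i) = _
        rw [dlt_rule h4, min_eq_left (tok_le hS (getD_mem hi) h4)]
        unfold runT
        rw [List.foldl_append]
        rfl

/-- The output on numbers. -/
def outM (S : RS) : ℕ → List ℕ → List ℕ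
  | _, [] => []
  | s, a :: u => otp s a :: outM S (dlt S s a) u

theorem output_val (S : RS) (q : Fin (toMealy S).n) (w : List (Fin (toMealy S).m)) :
    ((toMealy S).output q w).map Fin.val = outM S q.val (w.map Fin.val) := by
  induction w generalizing q with
  | nil => rfl
  | cons a w ih =>
    show otp q.val a.val :: _ = otp q.val a.val :: _
    rw [ih]
    rfl

theorem outM_zero {S : RS} (u : List ℕ) (hu : ∀ a ∈ u, ¬ a = 0 ∧ ¬ a = 2) :
    outM S 0 (u ++ [2]) = List.replicate (u.length + 1) 2 := by
  induction u with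
  | nil => rfl
  | cons a u ih =>
    have h := hu a (by simp)
    have h1 : dlt S 0 a = 0 := by
      unfold dlt
      rw [if_neg h.1, if_neg h.2]
      simp
    show otp 0 a :: outM S (dlt S 0 a) (u ++ [2]) = _
    rw [h1, ih fun b hb => hu b (List.mem_cons_of_mem _ hb)]
    unfold otp
    rw [if_pos ⟨rfl, h.1⟩]
    rfl

/-- If the output from the checker does not contain the letter `0` then the word consists of
start letters and rules, up to a last finish letter. -/
theorem shape {S : RS} (u : List ℕ) (h : 0 ∉ outM S 0 u) :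
    (∀ a ∈ u, ¬ a = 0 ∧ ¬ a = 2) ∨ ∃ u', (∀ a ∈ u', ¬ a = 0 ∧ ¬ a = 2) ∧ u = u' ++ [2] := by
  induction u with
  | nil => left; simp
  | cons a u ih =>
    have ha : ¬ a = 0 := by
      rintro rfl
      exact h (by simp [outM, otp])
    by_cases h2 : a = 2
    · subst h2
      right
      refine ⟨[], by simp, ?_⟩
      cases u with
      | nil => rfl
      | cons b u =>
        exfalso
        apply h
        show (0 : ℕ) ∈ otp 0 2 :: otp (dlt S 0 2) b :: _
        have : dlt S 0 2 = 1 := rfl
        rw [this]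
        simp [otp]
    · have h1 : dlt S 0 a = 0 := by
        unfold dlt
        rw [if_neg ha, if_neg h2]
        simp
      have h3 : 0 ∉ outM S 0 u := by
        intro h4
        apply h
        show (0 : ℕ) ∈ otp 0 a :: outM S (dlt S 0 a) u
        rw [h1]
        exact List.mem_cons_of_mem _ h4
      rcases ih h3 with h4 | ⟨u', h4, rfl⟩
      · left
        intro b hb
        rcases List.mem_cons.1 hb with rfl | hb
        · exact ⟨ha, h2⟩
        · exact h4 b hb
      · right
        refine ⟨a :: u', ?_, rfl⟩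
        intro b hb
        rcases List.mem_cons.1 hb with rfl | hb
        · exact ⟨ha, h2⟩
        · exact h4 b hb

theorem runM_zero {S : RS} (u : List ℕ) (hu : ∀ a ∈ u, ¬ a = 0 ∧ ¬ a = 2) : runM S 0 u = 0 := by
  induction u with
  | nil => rfl
  | cons a u ih =>
    have h := hu a (by simp)
    have h1 : dlt S 0 a = 0 := by
      unfold dlt
      rw [if_neg h.1, if_neg h.2]
      simp
    show runM S (dlt S 0 a) u = 0
    rw [h1]
    exact ih fun b hb => hu b (List.mem_cons_of_mem _ hb)

/-- The Mealy automaton is not reset iff the rule system is solvable. -/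
theorem not_isReset_iff {S : RS} (hS : RSwf S) : ¬ IsReset (toMealy S) ↔ RSyes S := by
  have h3 : 3 ≤ nsm S := by unfold nsm; omega
  have hm : (toMealy S).m = 3 + S.2.2.1.length := rfl
  constructor
  · intro hn
    have hex : ∃ u, (toMealy S).Sync u := by
      refine ⟨[⟨0, by rw [hm]; omega⟩], ?_⟩
      rw [sync_iff]
      intro s _
      rfl
    have hn2 : ∃ q u, (toMealy S).Sync u ∧ ¬ (toMealy S).Sync ((toMealy S).output q u) := by
      by_contra hcon
      push Not at hcon
      exact hn ⟨hex, hcon⟩
    obtain ⟨q, u, hu, hv⟩ := hn2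
    rw [sync_iff] at hu
    rw [sync_iff, output_val] at hv
    have hv0 : 0 ∉ outM S q.val (u.map Fin.val) := fun h => hv fun s _ => runM_of_mem h s
    have hune : u.map Fin.val ≠ [] := by
      intro h
      rw [h] at hu
      have h0 : (0 : ℕ) = 1 := hu 0 (by omega)
      exact absurd h0 (by decide)
    have hq : q.val = 0 := by
      by_contra hq
      obtain ⟨b, l, hbl⟩ := List.exists_cons_of_ne_nil hune
      rw [hbl] at hv0
      apply hv0
      show (0 : ℕ) ∈ otp q.val b :: _
      unfold otp
      rw [if_neg (fun h => hq h.1)]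
      exact List.mem_cons_self
    rw [hq] at hv0
    have hlt : ∀ a ∈ u.map Fin.val, a < 3 + S.2.2.1.length := by
      intro a ha
      obtain ⟨b, -, rfl⟩ := List.mem_map.1 ha
      exact b.2
    rcases shape _ hv0 with h4 | ⟨u', h4, h5⟩
    · exfalso
      have := hu 0 (by omega)
      rw [runM_zero _ h4] at this
      exact absurd this (by decide)
    · have h6 : ∀ a ∈ u', a = 1 ∨ (3 ≤ a ∧ a < 3 + S.2.2.1.length) := by
        intro a ha
        have h7 := h4 a ha
        have h8 := hlt a (by rw [h5]; exact List.mem_append_left _ ha)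
        omega
      obtain ⟨w, hw, h7⟩ := exists_rules hS u' h6
      rw [RSyes_iff]
      refine ⟨w, hw, fun t ht => ?_⟩
      obtain ⟨v, hv', h8⟩ := h7 t ht
      have h9 := hu (sm S t v) (sm_lt ht hv')
      rw [h5, runM_append, h8] at h9
      have h10 : dlt S (sm S t (runT S w t (S.2.1.getD t 0))) 2 = 1 := h9
      rw [dlt_fin (runT_le hS hw (initv_le hS ht))] at h10
      by_contra hcon
      rw [if_neg hcon] at h10
      exact absurd h10 (by decide)
  · intro hy hr
    rw [RSyes_iff] at hy
    obtain ⟨w, hw, h⟩ := hy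
    set l : List ℕ := 1 :: w.map (3 + ·) with hl
    have hl1 : ∀ a ∈ l, ¬ a = 0 ∧ ¬ a = 2 := by
      intro a ha
      rw [hl, List.mem_cons] at ha
      rcases ha with rfl | ha
      · omega
      · obtain ⟨i, -, rfl⟩ := List.mem_map.1 ha
        omega
    have hl2 : ∀ a ∈ l ++ [2], a < (toMealy S).m := by
      intro a ha
      rw [hm]
      rcases List.mem_append.1 ha with ha | ha
      · rw [hl, List.mem_cons] at ha
        rcases ha with rfl | ha
        · omega
        · obtain ⟨i, hi, rfl⟩ := List.mem_map.1 ha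
          have := hw i hi
          omega
      · rw [List.mem_singleton] at ha
        omega
    obtain ⟨u, hu⟩ : ∃ u : List (Fin (toMealy S).m), u.map Fin.val = l ++ [2] := by
      refine ⟨(l ++ [2]).pmap (fun a ha => ⟨a, ha⟩) hl2, ?_⟩
      rw [List.map_pmap]
      simp
    have hsync : (toMealy S).Sync u := by
      rw [sync_iff, hu]
      intro s hs
      rw [hl, List.cons_append]
      show runM S (dlt S s 1) (w.map (3 + ·) ++ [2]) = 1
      rw [runM_append]
      by_cases hs3 : s < 3
      · have hlow : ∀ x, x < 2 → ∀ w' : List ℕ, runM S x (w'.map (3 + ·)) = x := by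
          intro x hx w'
          induction w' with
          | nil => rfl
          | cons b w' ih =>
            have e1 : dlt S x (3 + b) = x := by
              unfold dlt
              rw [if_neg (by omega), if_neg (by omega), if_neg (by omega), if_pos (by omega)]
            show runM S (dlt S x (3 + b)) (w'.map (3 + ·)) = x
            rw [e1, ih]
        have e2 : dlt S s 1 = 0 ∨ dlt S s 1 = 1 := by
          unfold dlt
          split_ifs <;> omega
        rcases e2 with e2 | e2 <;> rw [e2, hlow _ (by omega)] <;> rfl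
      · obtain ⟨t, v, ht, hv, rfl⟩ := exists_sm hs hs3
        rw [dlt_start hv, min_eq_left (initv_le hS ht), runM_rules hS hw (initv_le hS ht)]
        show dlt S _ 2 = 1
        rw [dlt_fin (runT_le hS hw (initv_le hS ht)), if_pos (h t ht)]
    have h5 := hr.2 ⟨0, by show 0 < nsm S; omega⟩ u hsync
    rw [sync_iff, output_val, hu] at h5
    have h6 := h5 2 (by omega)
    rw [show ((⟨0, by show 0 < nsm S; omega⟩ : Fin (toMealy S).n)).val = 0 from rfl,
      outM_zero l hl1, runM_two] at h6
    exact absurd h6 (by decide)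

end Pool.Agent.R577.Reset
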