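import Pool.Agent.R577.Reset.Mem2
import Pool.Agent.R577.Reset.Hard

/-!
# The recognition of reset Mealy automata is complete for polynomial space
-/

namespace Pool.Agent.R577.Reset

open Pool.Agent.NPC Pool.Agent.H623R2.PS

theorem poly_dlt {α : Type} [TEnc α] {S : α → RS} {s a : α → ℕ} (hS : NPC.Poly S)
    (hs : NPC.Poly s) (ha : NPC.Poly a) : NPC.Poly (fun x => dlt (S x) (s x) (a x)) := by
  have hV : NPC.Poly (fun x => (S x).1) := NPC.Poly.fst hS
  have hI : NPC.Poly (fun x => (S x).2.1) := NPC.Poly.fst (NPC.Poly.snd hS)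
  have hR : NPC.Poly (fun x => (S x).2.2.1) := NPC.Poly.fst (NPC.Poly.snd (NPC.Poly.snd hS))
  have hF : NPC.Poly (fun x => (S x).2.2.2) := NPC.Poly.snd (NPC.Poly.snd (NPC.Poly.snd hS))
  have ht : NPC.Poly (fun x => (s x - 3) / ((S x).1 + 1)) := by fun_prop
  have hv : NPC.Poly (fun x => (s x - 3) % ((S x).1 + 1)) := by fun_prop
  have hok := poly_okf hV hF ht hv
  have htok := poly_tok hV (NPC.Poly.getD (d := fun _ => []) hR (NPC.Poly.sub ha (NPC.Poly.const 3))
    (NPC.Poly.const [])) ht hv
  unfold dlt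
  fun_prop

theorem poly_otp {α : Type} [TEnc α] {s a : α → ℕ} (hs : NPC.Poly s) (ha : NPC.Poly a) :
    NPC.Poly (fun x => otp (s x) (a x)) := by
  unfold otp
  fun_prop

theorem poly_toMealy {α : Type} [TEnc α] {S : α → RS} (hS : NPC.Poly S)
    (hU : UPoly (fun x => (S x).1)) : NPC.Poly (fun x => toMealy (S x)) := by
  have hI : NPC.Poly (fun x => (S x).2.1) := NPC.Poly.fst (NPC.Poly.snd hS)
  have hR : NPC.Poly (fun x => (S x).2.2.1) := NPC.Poly.fst (NPC.Poly.snd (NPC.Poly.snd hS))
  have hn : UPoly (fun x => nsm (S x)) := by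
    unfold nsm
    exact UPoly.add (UPoly.const _) (UPoly.mul (UPoly.length hI) (UPoly.add hU (UPoly.const 1)))
  have hm : UPoly (fun x => 3 + (S x).2.2.1.length) := UPoly.add (UPoly.const 3) (UPoly.length hR)
  have h1 : NPC.Poly (fun x => (List.range (nsm (S x))).map fun s =>
      (List.range (3 + (S x).2.2.1.length)).map fun a => dlt (S x) s a) := by
    refine NPC.Poly.map (F := fun x s => (List.range (3 + (S x).2.2.1.length)).map fun a =>
      dlt (S x) s a) hn.range ?_
    refine NPC.Poly.map (F := fun (p : α × ℕ) a => dlt (S p.1) p.2 a)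
      (hm.comp (NPC.Poly.fst NPC.Poly.id)).range ?_
    exact poly_dlt (by fun_prop) (by fun_prop) (by fun_prop)
  have h2 : NPC.Poly (fun x => (List.range (nsm (S x))).map fun s =>
      (List.range (3 + (S x).2.2.1.length)).map fun a => otp s a) := by
    refine NPC.Poly.map (F := fun x s => (List.range (3 + (S x).2.2.1.length)).map fun a =>
      otp s a) hn.range ?_
    refine NPC.Poly.map (F := fun (p : α × ℕ) a => otp p.2 a)
      (hm.comp (NPC.Poly.fst NPC.Poly.id)).range ?_
    exact poly_otp (by fun_prop) (by fun_prop)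
  have h3 := NPC.Poly.pair hn.toPoly (NPC.Poly.pair hm.toPoly (NPC.Poly.pair h1 h2))
  refine NPC.Poly.of_toT (h3.toT'.congr fun x => ?_)
  show toT _ = toT (toMealy (S x)).code
  congr 1
  unfold Mealy.code
  have e1 : ∀ q : Fin (toMealy (S x)).n,
      ((List.finRange (toMealy (S x)).m).map fun a => ((toMealy (S x)).δ q a).val) =
      (List.range (3 + (S x).2.2.1.length)).map fun a => dlt (S x) q.val a := by
    intro q
    exact finRange_map_val (3 + (S x).2.2.1.length) (fun a => dlt (S x) q.val a)
  have e2 : ∀ q : Fin (toMealy (S x)).n,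
      ((List.finRange (toMealy (S x)).m).map fun a => ((toMealy (S x)).out q a).val) =
      (List.range (3 + (S x).2.2.1.length)).map fun a => otp q.val a := by
    intro q
    exact finRange_map_val (3 + (S x).2.2.1.length) (fun a => otp q.val a)
  simp only [e1, e2]
  have e3 := finRange_map_val (nsm (S x)) (fun s =>
    (List.range (3 + (S x).2.2.1.length)).map fun a => dlt (S x) s a)
  have e4 := finRange_map_val (nsm (S x)) (fun s =>
    (List.range (3 + (S x).2.2.1.length)).map fun a => otp s a)
  exact congrArg₂ Prod.mk rfl (congrArg₂ Prod.mk rfl (congrArg₂ Prod.mk e3.symm e4.symm))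

theorem hard : PSPACEHard (lang IsReset) := by
  intro L hL
  obtain ⟨S, hS, hU, hwf, hiff⟩ := pspace_rules (inPSPACE_compl hL)
  refine ⟨fun x => bits (toMealy (S x)), ?_, ?_⟩
  · have h1 : PC (bits : List Bool → List Bool) (bits : Mealy → List Bool)
        (fun x => toMealy (S x)) := poly_toMealy hS hU
    have h2 : PC (fun x : List Bool => x) (bits : List Bool → List Bool) (fun x => x) := PC.ofBits
    obtain ⟨c, p, h⟩ := PC.comp h1 h2
    exact PC.toPolyTime ⟨c, p, h⟩
  · intro x
    have h1 : x ∈ L ↔ IsReset (toMealy (S x)) := by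
      have h2 := (not_isReset_iff (hwf x)).trans (hiff x).symm
      rw [Set.mem_compl_iff] at h2
      exact (not_iff_not.1 h2).symm
    rw [h1]
    unfold lang
    constructor
    · intro h
      exact ⟨_, rfl, h⟩
    · rintro ⟨I, hI, h⟩
      have : I = toMealy (S x) := TEnc.inj (T.enc_injective hI)
      rwa [this] at h

end Pool.Agent.R577.Reset
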