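import Pool.Agent.H505R3.RS.Mem
import Pool.Agent.R577.Reset.Closure
import Pool.Agent.R577.Reset.Defs

/-!
# The recognition of reset Mealy automata is in polynomial space
-/

namespace Pool.Agent.R577.Reset

open Pool.Agent.NPC Pool.Agent.H623R2.PS Pool.Agent.H505R3.RS

set_option autoImplicit false

/-- the codes of automata -/
abbrev MCode : Type := ℕ × ℕ × List (List ℕ) × List (List ℕ)

/-- the number of letters, read off from the first row -/
def lets (c : MCode) : ℕ := (c.2.2.1.head?.getD []).length

/-- a table is well-formed -/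
def okt (m b : ℕ) (t : List (List ℕ)) : Bool :=
  t.all fun row => decide (row.length = m) && row.all fun x => decide (x < b)

/-- the test whether a code is a code of an automaton with at least one state -/
def okm (c : MCode) : Bool :=
  decide (0 < c.2.2.1.length) && (decide (c.1 = c.2.2.1.length) && (decide (c.1 = c.2.2.2.length) &&
    (okt c.2.1 c.1 c.2.2.1 && okt c.2.1 c.2.1 c.2.2.2)))

/-- the column of a letter -/
def col (t : List (List ℕ)) (a : ℕ) : List ℕ := t.map fun r => r.getD a 0

/-- number of elements of a bit vector -/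
def cnt (u : List Bool) : ℕ := (u.filter fun b => b).length

/-- one step, for the search of a synchronizing word -/
def stA (c : MCode) (u v : List Bool) : Bool :=
  ((List.range (lets c)).any fun a => decide (v = img c.2.2.1.length (col c.2.2.1 a) u)) ||
    (decide (cnt u = 1) && decide (v = u.map fun _ => false))

/-- the `i`-th block of `n` bits -/
def blk (n i : ℕ) (u : List Bool) : List Bool := (List.range n).map fun j => u.getD (i * n + j) false

/-- one step, for the search of a word which shows that the automaton is not reset -/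
def stB (c : MCode) (u v : List Bool) : Bool :=
  (decide (u = (List.range (3 * c.2.2.1.length)).map fun _ => false) &&
    (List.range c.2.2.1.length).any fun q =>
      decide (v = ((List.range c.2.2.1.length).map fun _ => true) ++
        (((List.range c.2.2.1.length).map fun j => decide (j = q)) ++
          ((List.range c.2.2.1.length).map fun _ => true)))) ||
  (((List.range (lets c)).any fun a => (List.range c.2.2.1.length).any fun q =>
      (blk c.2.2.1.length 1 u).getD q false &&
      decide (v = img c.2.2.1.length (col c.2.2.1 a) (blk c.2.2.1.length 0 u) ++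
        (img c.2.2.1.length (col c.2.2.1 a) (blk c.2.2.1.length 1 u) ++
          img c.2.2.1.length (col c.2.2.1 ((c.2.2.2.getD q []).getD a 0))
            (blk c.2.2.1.length 2 u)))) ||
  (decide (cnt (blk c.2.2.1.length 0 u) = 1) && (decide (¬ cnt (blk c.2.2.1.length 2 u) = 1) &&
    decide (v = ((List.range c.2.2.1.length).map fun _ => false) ++
      (List.range (2 * c.2.2.1.length)).map fun _ => true))))

theorem poly_col {α : Type} [TEnc α] {t : α → List (List ℕ)} {a : α → ℕ}
    (ht : NPC.Poly t) (ha : NPC.Poly a) : NPC.Poly (fun x => col (t x) (a x)) := by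
  unfold col
  exact NPC.Poly.map (l := t) (F := fun x r => r.getD (a x) 0) ht (by fun_prop)

theorem poly_cnt {α : Type} [TEnc α] {u : α → List Bool} (hu : NPC.Poly u) :
    NPC.Poly (fun x => cnt (u x)) := by
  unfold cnt
  fun_prop

theorem poly_okt {α : Type} [TEnc α] {m b : α → ℕ} {t : α → List (List ℕ)} (hm : NPC.Poly m)
    (hb : NPC.Poly b) (ht : NPC.Poly t) : NPC.Poly (fun x => okt (m x) (b x) (t x)) := by
  unfold okt
  refine NPC.Poly.all (l := t) (p := fun x row => decide (row.length = m x) &&
    row.all fun y => decide (y < b x)) ht ?_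
  have h1 : NPC.Poly (fun p : α × List ℕ => p.2.all fun y => decide (y < b p.1)) :=
    NPC.Poly.all (l := fun p : α × List ℕ => p.2) (p := fun p y => decide (y < b p.1))
      (by fun_prop) (by fun_prop)
  fun_prop

theorem poly_okm : NPC.Poly okm := by
  unfold okm
  have h1 : NPC.Poly (fun c : MCode => okt c.2.1 c.1 c.2.2.1) :=
    poly_okt (by fun_prop) (by fun_prop) (by fun_prop)
  have h2 : NPC.Poly (fun c : MCode => okt c.2.1 c.2.1 c.2.2.2) :=
    poly_okt (by fun_prop) (by fun_prop) (by fun_prop)
  fun_prop

theorem upoly_n {α : Type} [TEnc α] {c : α → MCode} (hc : NPC.Poly c) :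
    UPoly (fun x => (c x).2.2.1.length) := UPoly.length (by fun_prop)

theorem upoly_lets {α : Type} [TEnc α] {c : α → MCode} (hc : NPC.Poly c) :
    UPoly (fun x => lets (c x)) := UPoly.length (by fun_prop)

theorem poly_blk {α : Type} [TEnc α] {n : α → ℕ} {u : α → List Bool} (i : ℕ)
    (hn : UPoly n) (hu : NPC.Poly u) : NPC.Poly (fun x => blk (n x) i (u x)) := by
  unfold blk
  have hn' := hn.toPoly
  exact NPC.Poly.map (l := fun x => List.range (n x))
    (F := fun x j => (u x).getD (i * n x + j) false) hn.range (by fun_prop)

theorem poly_stA : NPC.Poly (fun p : MCode × List Bool × List Bool => stA p.1 p.2.1 p.2.2) := by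
  unfold stA
  have hl : NPC.Poly (fun p : MCode × List Bool × List Bool => List.range (lets p.1)) :=
    (upoly_lets (by fun_prop)).range
  have h1 : NPC.Poly (fun p : MCode × List Bool × List Bool => (List.range (lets p.1)).any fun a =>
      decide (p.2.2 = img p.1.2.2.1.length (col p.1.2.2.1 a) p.2.1)) := by
    refine NPC.Poly.any (l := fun p : MCode × List Bool × List Bool => List.range (lets p.1))
      (p := fun p a => decide (p.2.2 = img p.1.2.2.1.length (col p.1.2.2.1 a) p.2.1)) hl ?_
    have h2 : NPC.Poly (fun p : (MCode × List Bool × List Bool) × ℕ =>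
        img p.1.1.2.2.1.length (col p.1.1.2.2.1 p.2) p.1.2.1) :=
      poly_img (upoly_n (by fun_prop)) (poly_col (by fun_prop) (by fun_prop)) (by fun_prop)
    fun_prop
  have h3 : NPC.Poly (fun p : MCode × List Bool × List Bool => cnt p.2.1) := poly_cnt (by fun_prop)
  fun_prop

theorem poly_stB : NPC.Poly (fun p : MCode × List Bool × List Bool => stB p.1 p.2.1 p.2.2) := by
  unfold stB
  have hl : NPC.Poly (fun p : MCode × List Bool × List Bool => List.range (lets p.1)) :=
    (upoly_lets (by fun_prop)).range
  have hr : NPC.Poly (fun p : MCode × List Bool × List Bool => List.range p.1.2.2.1.length) :=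
    (upoly_n (by fun_prop)).range
  have hr2 : NPC.Poly (fun p : MCode × List Bool × List Bool =>
      List.range (2 * p.1.2.2.1.length)) :=
    ((UPoly.const 2).mul (upoly_n (by fun_prop))).range
  have hr3 : NPC.Poly (fun p : MCode × List Bool × List Bool =>
      List.range (3 * p.1.2.2.1.length)) :=
    ((UPoly.const 3).mul (upoly_n (by fun_prop))).range
  have hq : NPC.Poly (fun p : (MCode × List Bool × List Bool) × ℕ =>
      List.range p.1.1.2.2.1.length) := (upoly_n (by fun_prop)).range
  have h1 : NPC.Poly (fun p : MCode × List Bool × List Bool =>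
      (List.range p.1.2.2.1.length).any fun q =>
      decide (p.2.2 = ((List.range p.1.2.2.1.length).map fun _ => true) ++
        (((List.range p.1.2.2.1.length).map fun j => decide (j = q)) ++
          ((List.range p.1.2.2.1.length).map fun _ => true)))) := by
    refine NPC.Poly.any (l := fun p : MCode × List Bool × List Bool =>
      List.range p.1.2.2.1.length)
      (p := fun p q => decide (p.2.2 = ((List.range p.1.2.2.1.length).map fun _ => true) ++
        (((List.range p.1.2.2.1.length).map fun j => decide (j = q)) ++
          ((List.range p.1.2.2.1.length).map fun _ => true)))) hr ?_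
    fun_prop
  have h2 : NPC.Poly (fun p : MCode × List Bool × List Bool =>
      (List.range (lets p.1)).any fun a => (List.range p.1.2.2.1.length).any fun q =>
      (blk p.1.2.2.1.length 1 p.2.1).getD q false &&
      decide (p.2.2 = img p.1.2.2.1.length (col p.1.2.2.1 a) (blk p.1.2.2.1.length 0 p.2.1) ++
        (img p.1.2.2.1.length (col p.1.2.2.1 a) (blk p.1.2.2.1.length 1 p.2.1) ++
          img p.1.2.2.1.length (col p.1.2.2.1 ((p.1.2.2.2.getD q []).getD a 0))
            (blk p.1.2.2.1.length 2 p.2.1)))) := by
    refine NPC.Poly.any (l := fun p : MCode × List Bool × List Bool => List.range (lets p.1))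
      (p := fun p a => (List.range p.1.2.2.1.length).any fun q =>
      (blk p.1.2.2.1.length 1 p.2.1).getD q false &&
      decide (p.2.2 = img p.1.2.2.1.length (col p.1.2.2.1 a) (blk p.1.2.2.1.length 0 p.2.1) ++
        (img p.1.2.2.1.length (col p.1.2.2.1 a) (blk p.1.2.2.1.length 1 p.2.1) ++
          img p.1.2.2.1.length (col p.1.2.2.1 ((p.1.2.2.2.getD q []).getD a 0))
            (blk p.1.2.2.1.length 2 p.2.1)))) hl ?_
    refine NPC.Poly.any (l := fun p : (MCode × List Bool × List Bool) × ℕ =>
      List.range p.1.1.2.2.1.length)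
      (p := fun p q => (blk p.1.1.2.2.1.length 1 p.1.2.1).getD q false &&
      decide (p.1.2.2 = img p.1.1.2.2.1.length (col p.1.1.2.2.1 p.2) (blk p.1.1.2.2.1.length 0 p.1.2.1) ++
        (img p.1.1.2.2.1.length (col p.1.1.2.2.1 p.2) (blk p.1.1.2.2.1.length 1 p.1.2.1) ++
          img p.1.1.2.2.1.length (col p.1.1.2.2.1 ((p.1.1.2.2.2.getD q []).getD p.2 0))
            (blk p.1.1.2.2.1.length 2 p.1.2.1)))) hq ?_
    have hn : UPoly (fun p : ((MCode × List Bool × List Bool) × ℕ) × ℕ =>
      p.1.1.1.2.2.1.length) := upoly_n (by fun_prop)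
    have hb : ∀ i : ℕ, NPC.Poly (fun p : ((MCode × List Bool × List Bool) × ℕ) × ℕ =>
      blk p.1.1.1.2.2.1.length i p.1.1.2.1) := fun i => poly_blk i hn (by fun_prop)
    have hb0 := hb 0
    have hb1 := hb 1
    have hb2 := hb 2
    have hc : NPC.Poly (fun p : ((MCode × List Bool × List Bool) × ℕ) × ℕ =>
      col p.1.1.1.2.2.1 p.1.2) := poly_col (by fun_prop) (by fun_prop)
    have hc2 : NPC.Poly (fun p : ((MCode × List Bool × List Bool) × ℕ) × ℕ =>
      col p.1.1.1.2.2.1 ((p.1.1.1.2.2.2.getD p.2 []).getD p.1.2 0)) :=
      poly_col (by fun_prop) (by fun_prop)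
    have hi0 := poly_img hn hc hb0
    have hi1 := poly_img hn hc hb1
    have hi2 := poly_img hn hc2 hb2
    fun_prop
  have hn : UPoly (fun p : MCode × List Bool × List Bool => p.1.2.2.1.length) :=
    upoly_n (by fun_prop)
  have h3 : NPC.Poly (fun p : MCode × List Bool × List Bool => cnt (blk p.1.2.2.1.length 0 p.2.1)) :=
    poly_cnt (poly_blk 0 hn (by fun_prop))
  have h4 : NPC.Poly (fun p : MCode × List Bool × List Bool => cnt (blk p.1.2.2.1.length 2 p.2.1)) :=
    poly_cnt (poly_blk 2 hn (by fun_prop))
  fun_prop

end Pool.Agent.R577.Reset
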