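import Pool.Agent.R577.Reset.Mem

/-!
# The recognition of reset Mealy automata is in polynomial space (correctness)
-/

namespace Pool.Agent.R577.Reset

open Pool.Agent.NPC Pool.Agent.H623R2.PS Pool.Agent.H505R3.RS Relation

set_option autoImplicit false

/-- the set `Q · u` -/
def imW (A : Mealy) (u : List (Fin A.m)) : Finset (Fin A.n) := Finset.univ.image fun q => A.run q u

theorem run_snoc (A : Mealy) (q : Fin A.n) (u : List (Fin A.m)) (a : Fin A.m) :
    A.run q (u ++ [a]) = A.δ (A.run q u) a := by
  unfold Mealy.run
  rw [List.foldl_append]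
  rfl

theorem imW_snoc (A : Mealy) (u : List (Fin A.m)) (a : Fin A.m) :
    imW A (u ++ [a]) = (imW A u).image fun q => A.δ q a := by
  unfold imW
  rw [Finset.image_image]
  congr 1
  funext q
  exact run_snoc A q u a

theorem imW_nil (A : Mealy) : imW A [] = Finset.univ := by
  unfold imW
  ext q
  simp [Mealy.run]

theorem output_snoc (A : Mealy) (q : Fin A.n) (u : List (Fin A.m)) (a : Fin A.m) :
    A.output q (u ++ [a]) = A.output q u ++ [A.out (A.run q u) a] := by
  induction u generalizing q with
  | nil => rfl
  | cons b u ih =>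
    show A.out q b :: A.output (A.δ q b) (u ++ [a]) = _
    rw [ih]
    rfl

theorem imW_nonempty {A : Mealy} (hn : 0 < A.n) (u : List (Fin A.m)) : (imW A u).Nonempty :=
  ⟨_, Finset.mem_image_of_mem _ (Finset.mem_univ ⟨0, hn⟩)⟩

theorem code_n (A : Mealy) : A.code.2.2.1.length = A.n := by simp [Mealy.code]

theorem code_lets {A : Mealy} (hn : 0 < A.n) : lets A.code = A.m := by
  unfold lets Mealy.code
  rw [List.head?_eq_getElem?]
  rw [List.getElem?_eq_getElem (by simpa using hn)]
  simp

theorem code_col (A : Mealy) (a : Fin A.m) :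
    col A.code.2.2.1 a.val = (List.finRange A.n).map fun q => (A.δ q a).val := by
  unfold col Mealy.code
  rw [List.map_map]
  refine List.map_congr_left fun q _ => ?_
  simp only [Function.comp]
  rw [List.getD_eq_getElem _ _ (by simp)]
  simp

theorem code_out (A : Mealy) (q : Fin A.n) (a : Fin A.m) :
    (A.code.2.2.2.getD q.val []).getD a.val 0 = (A.out q a).val := by
  unfold Mealy.code
  simp only
  rw [List.getD_eq_getElem _ [] (by simp), List.getD_eq_getElem _ _ (by simp)]
  simp

theorem img_code (A : Mealy) (S : Finset (Fin A.n)) (a : Fin A.m) :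
    img A.n (col A.code.2.2.1 a.val) (vec S) = vec (S.image fun q => A.δ q a) := by
  rw [code_col]
  exact img_vec (fun q => A.δ q a) S

theorem vec_empty (n : ℕ) : vec (∅ : Finset (Fin n)) = List.replicate n false := by
  apply List.ext_getElem
  · simp [vec_length]
  · intro i h1 h2
    simp [vec]

theorem cnt_vec {n : ℕ} (S : Finset (Fin n)) : cnt (vec S) = S.card := vec_count S

theorem stA_vec {A : Mealy} (hn : 0 < A.n) (S : Finset (Fin A.n)) (v : List Bool) :
    stA A.code (vec S) v = true ↔ (∃ a : Fin A.m, v = vec (S.image fun q => A.δ q a)) ∨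
      (S.card = 1 ∧ v = vec (∅ : Finset (Fin A.n))) := by
  unfold stA
  rw [Bool.or_eq_true, Bool.and_eq_true, List.any_eq_true, decide_eq_true_eq, decide_eq_true_eq,
    code_n, code_lets hn, cnt_vec]
  refine or_congr ?_ ?_
  · constructor
    · rintro ⟨a, ha, h⟩
      rw [List.mem_range] at ha
      rw [decide_eq_true_eq] at h
      exact ⟨⟨a, ha⟩, by rw [h]; exact img_code A S ⟨a, ha⟩⟩
    · rintro ⟨a, rfl⟩
      exact ⟨a.val, List.mem_range.2 a.2, by rw [decide_eq_true_eq, img_code]⟩
  · refine and_congr_right fun _ => ?_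
    rw [vec_empty, List.map_const', vec_length]

theorem sync_iff_card (A : Mealy) (u : List (Fin A.m)) : A.Sync u ↔ (imW A u).card = 1 := Iff.rfl

theorem reachA {A : Mealy} (hn : 0 < A.n) (v : List Bool) :
    ReflTransGen (fun u v => stA A.code u v = true) (vec (Finset.univ : Finset (Fin A.n))) v →
      (∃ u, v = vec (imW A u)) ∨ ∃ u, A.Sync u := by
  intro h
  induction h with
  | refl => exact Or.inl ⟨[], by rw [imW_nil]⟩
  | @tail u v _ h ih =>
    rcases ih with ⟨u, rfl⟩ | h'
    · rw [stA_vec hn] at h
      rcases h with ⟨a, rfl⟩ | ⟨h1, -⟩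
      · exact Or.inl ⟨u ++ [a], by rw [imW_snoc]⟩
      · exact Or.inr ⟨u, h1⟩
    · exact Or.inr h'

theorem reachA' {A : Mealy} (hn : 0 < A.n) (u : List (Fin A.m)) :
    ReflTransGen (fun u v => stA A.code u v = true) (vec (Finset.univ : Finset (Fin A.n)))
      (vec (imW A u)) := by
  induction u using List.reverseRecOn with
  | nil => rw [imW_nil]
  | append_singleton u a ih =>
    refine ih.tail ?_
    rw [stA_vec hn, imW_snoc]
    exact Or.inl ⟨a, rfl⟩

theorem reachA_iff {A : Mealy} (hn : 0 < A.n) :
    ReflTransGen (fun u v => stA A.code u v = true) (List.replicate A.n true)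
      (List.replicate A.n false) ↔ ∃ u, A.Sync u := by
  rw [← vec_univ, ← vec_empty]
  constructor
  · intro h
    rcases reachA hn _ h with ⟨u, h⟩ | h
    · have := vec_injective h
      exact absurd this.symm (imW_nonempty hn u).ne_empty
    · exact h
  · rintro ⟨u, hu⟩
    refine (reachA' hn u).tail ?_
    rw [stA_vec hn]
    exact Or.inr ⟨hu, rfl⟩

/-! ### The second search -/

theorem blk_zero {n : ℕ} {X Y : List Bool} (h : X.length = n) : blk n 0 (X ++ Y) = X := by
  unfold blk
  apply List.ext_getElem
  · simp [h]
  · intro i h1 h2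
    rw [List.getElem_map, List.getElem_range, zero_mul, zero_add,
      List.getD_append _ _ _ _ h2, List.getD_eq_getElem _ _ h2]

theorem blk_one {n : ℕ} {X Y Z : List Bool} (h : X.length = n) (h' : Y.length = n) :
    blk n 1 (X ++ (Y ++ Z)) = Y := by
  unfold blk
  apply List.ext_getElem
  · simp [h']
  · intro i h1 h2
    rw [List.getElem_map, List.getElem_range, one_mul,
      List.getD_append_right _ _ _ _ (by omega), h, Nat.add_sub_cancel_left,
      List.getD_append _ _ _ _ h2, List.getD_eq_getElem _ _ h2]

theorem blk_two {n : ℕ} {X Y Z : List Bool} (h : X.length = n) (h' : Y.length = n)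
    (h'' : Z.length = n) : blk n 2 (X ++ (Y ++ Z)) = Z := by
  unfold blk
  apply List.ext_getElem
  · simp [h'']
  · intro i h1 h2
    rw [List.getElem_map, List.getElem_range,
      List.getD_append_right _ _ _ _ (by omega), h,
      List.getD_append_right _ _ _ _ (by omega), h',
      show 2 * n + i - n - n = i by omega, List.getD_eq_getElem _ _ h2]

/-- three sets as a bit string -/
def tri {n : ℕ} (S T R : Finset (Fin n)) : List Bool := vec S ++ (vec T ++ vec R)

/-- the last configuration -/
def lastc (n : ℕ) : List Bool :=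
  ((List.range n).map fun _ => false) ++ (List.range (2 * n)).map fun _ => true

/-- the first configuration -/
def firstc (n : ℕ) : List Bool := (List.range (3 * n)).map fun _ => false

theorem tri_length {n : ℕ} (S T R : Finset (Fin n)) : (tri S T R).length = 3 * n := by
  unfold tri
  simp only [List.length_append, vec_length]
  omega

theorem tri_inj {n : ℕ} {S T R S' T' R' : Finset (Fin n)} (h : tri S T R = tri S' T' R') :
    S = S' ∧ T = T' ∧ R = R' := by
  unfold tri at h
  have h1 := List.append_inj h (by simp [vec_length])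
  have h2 := List.append_inj h1.2 (by simp [vec_length])
  exact ⟨vec_injective h1.1, vec_injective h2.1, vec_injective h2.2⟩

theorem firstc_eq (n : ℕ) : firstc n = tri (∅ : Finset (Fin n)) ∅ ∅ := by
  unfold firstc tri
  rw [vec_empty, List.map_const', List.length_range]
  apply List.ext_getElem
  · simp; omega
  · intro i h1 h2
    rw [List.getElem_replicate]
    simp only [List.getElem_append, List.getElem_replicate]
    split_ifs <;> rfl

theorem lastc_eq (n : ℕ) : lastc n = tri (∅ : Finset (Fin n)) Finset.univ Finset.univ := by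
  unfold lastc tri
  rw [vec_empty, vec_univ, List.map_const', List.length_range, List.map_const', List.length_range]
  congr 1
  apply List.ext_getElem
  · simp; omega
  · intro i h1 h2
    rw [List.getElem_replicate]
    simp only [List.getElem_append, List.getElem_replicate]
    split_ifs <;> rfl

theorem start_eq {n : ℕ} (q : ℕ) (hq : q < n) : ((List.range n).map fun _ => true) ++
        (((List.range n).map fun j => decide (j = q)) ++ ((List.range n).map fun _ => true)) =
      tri (Finset.univ : Finset (Fin n)) {⟨q, hq⟩} Finset.univ := by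
  unfold tri
  rw [vec_univ, List.map_const', List.length_range]
  congr 2
  apply List.ext_getElem
  · simp [vec]
  · intro i h1 h2
    have h3 : i < n := by simpa using h1
    rw [vec_getElem _ _ _ h3, List.getElem_map, List.getElem_range]
    simp [Fin.ext_iff]

theorem stB_first (A : Mealy) (hn : 0 < A.n) (v : List Bool) :
    stB A.code (tri (∅ : Finset (Fin A.n)) ∅ ∅) v = true ↔
      ∃ q : Fin A.n, v = tri Finset.univ {q} Finset.univ := by
  unfold stB
  rw [code_n, code_lets hn, ← firstc_eq]
  have e0 : blk A.n 0 (firstc A.n) = vec (∅ : Finset (Fin A.n)) := by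
    rw [firstc_eq]; exact blk_zero (vec_length _)
  have e1 : blk A.n 1 (firstc A.n) = vec (∅ : Finset (Fin A.n)) := by
    rw [firstc_eq]; exact blk_one (vec_length _) (vec_length _)
  rw [e0, e1, cnt_vec, Finset.card_empty]
  have h2 : ((List.range A.m).any fun a => (List.range A.n).any fun q =>
      (vec (∅ : Finset (Fin A.n))).getD q false &&
      decide (v = img A.n (col A.code.2.2.1 a) (vec (∅ : Finset (Fin A.n))) ++
        (img A.n (col A.code.2.2.1 a) (vec (∅ : Finset (Fin A.n))) ++
          img A.n (col A.code.2.2.1 ((A.code.2.2.2.getD q []).getD a 0))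
            (blk A.n 2 (firstc A.n))))) = false := by
    rw [List.any_eq_false]
    intro a _
    rw [Bool.not_eq_true, List.any_eq_false]
    intro q hq
    rw [List.mem_range] at hq
    have h3 := vec_getD (∅ : Finset (Fin A.n)) ⟨q, hq⟩
    simp only at h3
    rw [h3]
    simp
  rw [h2]
  simp only [Bool.false_or, zero_ne_one, decide_false, Bool.false_and, Bool.or_false]
  rw [Bool.and_eq_true, List.any_eq_true]
  constructor
  · rintro ⟨-, q, hq, h⟩
    rw [List.mem_range] at hq
    rw [decide_eq_true_eq, start_eq q hq] at h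
    exact ⟨_, h⟩
  · rintro ⟨q, rfl⟩
    refine ⟨by rw [decide_eq_true_eq]; rfl, q.val, List.mem_range.2 q.2, ?_⟩
    rw [decide_eq_true_eq, start_eq q.val q.2]

theorem stB_conf {A : Mealy} (hn : 0 < A.n) (S R : Finset (Fin A.n)) (hS : S.Nonempty)
    (q : Fin A.n) (v : List Bool) :
    stB A.code (tri S {q} R) v = true ↔
      (∃ a : Fin A.m, v = tri (S.image fun q => A.δ q a) {A.δ q a}
        (R.image fun p => A.δ p (A.out q a))) ∨
      (S.card = 1 ∧ ¬ R.card = 1 ∧ v = lastc A.n) := by
  unfold stB
  rw [code_n, code_lets hn]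
  have e0 : blk A.n 0 (tri S {q} R) = vec S := blk_zero (vec_length _)
  have e1 : blk A.n 1 (tri S {q} R) = vec {q} := blk_one (vec_length _) (vec_length _)
  have e2 : blk A.n 2 (tri S {q} R) = vec R :=
    blk_two (vec_length _) (vec_length _) (vec_length _)
  have e3 : decide (tri S {q} R = (List.range (3 * A.n)).map fun _ => false) = false := by
    rw [decide_eq_false_iff_not]
    intro h
    have h4 : tri S {q} R = firstc A.n := h
    rw [firstc_eq] at h4
    exact hS.ne_empty (tri_inj h4).1
  rw [e0, e1, e2, e3, cnt_vec, cnt_vec, Bool.false_and, Bool.false_or, Bool.or_eq_true]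
  refine or_congr ?_ ?_
  · rw [List.any_eq_true]
    constructor
    · rintro ⟨a, ha, h⟩
      rw [List.mem_range] at ha
      rw [List.any_eq_true] at h
      obtain ⟨q', hq', h⟩ := h
      rw [List.mem_range] at hq'
      rw [Bool.and_eq_true, decide_eq_true_eq] at h
      have h5 := vec_getD ({q} : Finset (Fin A.n)) ⟨q', hq'⟩
      simp only at h5
      rw [h.1] at h5
      have h6 : (⟨q', hq'⟩ : Fin A.n) = q := by simpa using h5.symm
      have h7 : q' = q.val := by rw [← h6]
      subst h7
      refine ⟨⟨a, ha⟩, ?_⟩
      rw [h.2]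
      have h8 := code_out A q ⟨a, ha⟩
      simp only at h8
      rw [h8, img_code A R, img_code A S ⟨a, ha⟩, img_code A {q} ⟨a, ha⟩, Finset.image_singleton]
      rfl
    · rintro ⟨a, rfl⟩
      refine ⟨a.val, List.mem_range.2 a.2, ?_⟩
      rw [List.any_eq_true]
      refine ⟨q.val, List.mem_range.2 q.2, ?_⟩
      rw [Bool.and_eq_true, decide_eq_true_eq, code_out, img_code, img_code, img_code,
        Finset.image_singleton]
      exact ⟨by rw [vec_getD]; simp, rfl⟩
  · rw [Bool.and_eq_true, Bool.and_eq_true, decide_eq_true_eq, decide_eq_true_eq,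
      decide_eq_true_eq]
    rfl

/-- the configuration after the word `u` -/
def conf (A : Mealy) (q : Fin A.n) (u : List (Fin A.m)) : List Bool :=
  tri (imW A u) {A.run q u} (imW A (A.output q u))

theorem conf_nil (A : Mealy) (q : Fin A.n) : conf A q [] = tri Finset.univ {q} Finset.univ := by
  unfold conf
  rw [imW_nil]
  have : A.output q [] = [] := rfl
  rw [this, imW_nil]
  rfl

theorem stB_conf' {A : Mealy} (hn : 0 < A.n) (q : Fin A.n) (u : List (Fin A.m)) (v : List Bool) :
    stB A.code (conf A q u) v = true ↔ (∃ a : Fin A.m, v = conf A q (u ++ [a])) ∨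
      (A.Sync u ∧ ¬ A.Sync (A.output q u) ∧ v = lastc A.n) := by
  unfold conf
  rw [stB_conf hn _ _ (imW_nonempty hn u)]
  refine or_congr (exists_congr fun a => ?_) Iff.rfl
  rw [imW_snoc, output_snoc, imW_snoc, run_snoc]

theorem reachB_iff {A : Mealy} (hn : 0 < A.n) :
    ReflTransGen (fun u v => stB A.code u v = true) (firstc A.n) (lastc A.n) ↔
      ∃ q u, A.Sync u ∧ ¬ A.Sync (A.output q u) := by
  constructor
  · intro h
    have key : ∀ v, ReflTransGen (fun u v => stB A.code u v = true) (firstc A.n) v →
        v = firstc A.n ∨ (∃ q u, v = conf A q u) ∨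
          ∃ q u, A.Sync u ∧ ¬ A.Sync (A.output q u) := by
      intro v h
      induction h with
      | refl => exact Or.inl rfl
      | @tail u v _ h ih =>
        rcases ih with rfl | ⟨q, u, rfl⟩ | h'
        · rw [firstc_eq, stB_first A hn] at h
          obtain ⟨q, rfl⟩ := h
          exact Or.inr (Or.inl ⟨q, [], (conf_nil A q).symm⟩)
        · rw [stB_conf' hn] at h
          rcases h with ⟨a, rfl⟩ | ⟨h1, h2, -⟩
          · exact Or.inr (Or.inl ⟨q, _, rfl⟩)
          · exact Or.inr (Or.inr ⟨q, u, h1, h2⟩)
        · exact Or.inr (Or.inr h')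
    rcases key _ h with h | ⟨q, u, h⟩ | h
    · exfalso
      rw [lastc_eq, firstc_eq] at h
      have h1 := (tri_inj h).2.1
      have : (⟨0, hn⟩ : Fin A.n) ∈ (∅ : Finset (Fin A.n)) := by
        rw [← h1]; exact Finset.mem_univ _
      exact absurd this (Finset.notMem_empty _)
    · exfalso
      rw [lastc_eq] at h
      exact (imW_nonempty hn u).ne_empty (tri_inj h).1.symm
    · exact h
  · rintro ⟨q, u, h1, h2⟩
    have h3 : ReflTransGen (fun u v => stB A.code u v = true) (firstc A.n) (conf A q []) := by
      refine ReflTransGen.single ?_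
      rw [firstc_eq, stB_first A hn]
      exact ⟨q, conf_nil A q⟩
    have h4 : ∀ u, ReflTransGen (fun u v => stB A.code u v = true) (firstc A.n) (conf A q u) := by
      intro u
      induction u using List.reverseRecOn with
      | nil => exact h3
      | append_singleton u a ih =>
        refine ih.tail ?_
        rw [stB_conf' hn]
        exact Or.inl ⟨a, rfl⟩
    refine (h4 u).tail ?_
    rw [stB_conf' hn]
    exact Or.inr ⟨h1, h2, rfl⟩

/-! ### Codes -/

theorem okm_code (A : Mealy) : okm A.code = true ↔ 0 < A.n := by
  unfold okm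
  rw [Bool.and_eq_true, decide_eq_true_eq, code_n]
  constructor
  · exact fun h => h.1
  · intro h
    refine ⟨h, ?_⟩
    unfold okt Mealy.code
    simp

theorem okt_iff {m b : ℕ} {t : List (List ℕ)} (h : okt m b t = true) :
    ∀ row ∈ t, row.length = m ∧ ∀ x ∈ row, x < b := by
  intro row hrow
  unfold okt at h
  rw [List.all_eq_true] at h
  have h1 := h row hrow
  rw [Bool.and_eq_true, decide_eq_true_eq, List.all_eq_true] at h1
  exact ⟨h1.1, fun x hx => by simpa using h1.2 x hx⟩

theorem exists_mealy {c : MCode} (h : okm c = true) : ∃ A : Mealy, A.code = c ∧ 0 < A.n := by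
  obtain ⟨n, m, D, O⟩ := c
  unfold okm at h
  simp only [Bool.and_eq_true, decide_eq_true_eq] at h
  obtain ⟨h0, rfl, h1, h2, h3⟩ := h
  have h2' := okt_iff h2
  have h3' := okt_iff h3
  refine ⟨⟨D.length, m, fun q a => ⟨(D[q.val]).getD a.val 0, ?_⟩,
    fun q a => ⟨(O[q.val]'(by rw [← h1]; exact q.2)).getD a.val 0, ?_⟩⟩, ?_, h0⟩
  · have h4 := h2' D[q.val] (List.getElem_mem _)
    rw [List.getD_eq_getElem _ _ (by rw [h4.1]; exact a.2)]
    exact h4.2 _ (List.getElem_mem _)
  · have h4 := h3' (O[q.val]'(by rw [← h1]; exact q.2)) (List.getElem_mem _)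
    rw [List.getD_eq_getElem _ _ (by rw [h4.1]; exact a.2)]
    exact h4.2 _ (List.getElem_mem _)
  · unfold Mealy.code
    refine congrArg₂ Prod.mk rfl (congrArg₂ Prod.mk rfl (congrArg₂ Prod.mk ?_ ?_))
    · apply List.ext_getElem
      · simp
      · intro i h4 h5
        rw [List.getElem_map]
        apply List.ext_getElem
        · have := (h2' D[i] (List.getElem_mem _)).1
          simp [this]
        · intro j h6 h7
          rw [List.getElem_map]
          simp only [List.getElem_finRange, Fin.val_cast]
          rw [List.getD_eq_getElem _ _ h7]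
    · apply List.ext_getElem
      · simp [h1]
      · intro i h4 h5
        rw [List.getElem_map]
        apply List.ext_getElem
        · have := (h3' O[i] (List.getElem_mem _)).1
          simp [this]
        · intro j h6 h7
          rw [List.getElem_map]
          simp only [List.getElem_finRange, Fin.val_cast]
          rw [List.getD_eq_getElem _ _ h7]

/-- the code given by the input, or a bad code -/
def initm (x : List Bool) : MCode := (unbits MCode x).getD (1, 0, [], [])

theorem initm_bits (A : Mealy) : initm (bits A) = A.code := by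
  unfold initm
  have : bits A = bits A.code := rfl
  rw [this, unbits_bits, Option.getD_some]

theorem of_okm {x : List Bool} (h : okm (initm x) = true) :
    ∃ A : Mealy, bits A = x ∧ initm x = A.code ∧ 0 < A.n := by
  obtain ⟨A, hA, hn⟩ := exists_mealy h
  refine ⟨A, ?_, hA.symm, hn⟩
  have h3 : bits A = bits A.code := rfl
  rw [h3, hA]
  unfold initm
  cases hx : unbits MCode x with
  | none =>
    exfalso
    unfold initm at h
    rw [hx, Option.getD_none] at h
    exact absurd h (by decide)
  | some c =>
    rw [Option.getD_some]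
    exact bits_of_unbits hx

theorem pos_of_reset {A : Mealy} (h : IsReset A) : 0 < A.n := by
  obtain ⟨⟨u, hu⟩, -⟩ := h
  unfold Mealy.Sync at hu
  by_contra hn
  have : A.n = 0 := by omega
  have h1 : (Finset.univ : Finset (Fin A.n)) = ∅ := by
    ext q
    exact absurd q.2 (by omega)
  rw [h1] at hu
  simp at hu

/-- The first language: automata with a synchronizing word. -/
def LA : Set (List Bool) := {x | okm (initm x) = true ∧
  ReflTransGen (fun u v => stA (initm x) u v = true)
    (List.replicate (initm x).2.2.1.length true) (List.replicate (initm x).2.2.1.length false)}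

/-- The second language. -/
def LB : Set (List Bool) := {x | okm (initm x) = true ∧
  ReflTransGen (fun u v => stB (initm x) u v = true)
    (firstc (initm x).2.2.1.length) (lastc (initm x).2.2.1.length)}

theorem poly_initm : NPC.Poly initm := NPC.Poly.optGetD poly_unbits (NPC.Poly.const _)

theorem LA_mem : InPSPACE LA := by
  have hw : UPoly (fun c : MCode => c.2.2.1.length) := UPoly.length (by fun_prop)
  refine inPSPACE_of_reach poly_initm hw (good := okm) poly_okm (R := stA) poly_stA
    (s := fun c => List.replicate c.2.2.1.length true)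
    (t := fun c => List.replicate c.2.2.1.length false)
    (poly_replicate hw true) (poly_replicate hw false) ?_ ?_ ?_
  · intro c
    simp
  · intro c u v hu h
    unfold stA at h
    rw [Bool.or_eq_true, List.any_eq_true, Bool.and_eq_true, decide_eq_true_eq,
      decide_eq_true_eq] at h
    rcases h with ⟨a, -, h⟩ | ⟨-, h⟩
    · rw [decide_eq_true_eq] at h
      rw [h]
      simp [img]
    · rw [h]
      simpa using hu
  · intro x
    rfl

theorem LB_mem : InPSPACE LB := by
  have hw : UPoly (fun c : MCode => c.2.2.1.length) := UPoly.length (by fun_prop)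
  have hw3 : UPoly (fun c : MCode => 3 * c.2.2.1.length) := (UPoly.const 3).mul hw
  have h2 := ((UPoly.const 2).mul hw).range
  have h1 := hw.range
  have h3 := hw3.range
  refine inPSPACE_of_reach poly_initm hw3 (good := okm) poly_okm (R := stB) poly_stB
    (s := fun c => firstc c.2.2.1.length)
    (t := fun c => lastc c.2.2.1.length) ?_ ?_ ?_ ?_ ?_
  · unfold firstc
    fun_prop
  · unfold lastc
    fun_prop
  · intro c
    simp [firstc]
  · intro c u v hu h
    unfold stB at h
    simp only [Bool.or_eq_true, List.any_eq_true, Bool.and_eq_true, decide_eq_true_eq] at h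
    rcases h with ⟨-, q, -, rfl⟩ | ⟨a, -, q, -, -, rfl⟩ | ⟨-, -, rfl⟩
    · simp; omega
    · simp [img]; omega
    · simp; omega
  · intro x
    rfl

theorem lang_eq : lang IsReset = LA ∩ LBᶜ := by
  ext x
  constructor
  · rintro ⟨A, rfl, hA⟩
    have hn := pos_of_reset hA
    refine ⟨?_, ?_⟩
    · unfold LA
      rw [Set.mem_setOf_eq, initm_bits, code_n, okm_code, reachA_iff hn]
      exact ⟨hn, hA.1⟩
    · unfold LB
      rw [Set.mem_compl_iff, Set.mem_setOf_eq, initm_bits, code_n, okm_code, reachB_iff hn]
      rintro ⟨-, q, u, h1, h2⟩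
      exact h2 (hA.2 q u h1)
  · rintro ⟨h1, h2⟩
    have hok : okm (initm x) = true := h1.1
    obtain ⟨A, hA, hc, hn⟩ := of_okm hok
    unfold LA at h1
    unfold LB at h2
    rw [Set.mem_setOf_eq, hc, code_n, okm_code, reachA_iff hn] at h1
    rw [Set.mem_compl_iff, Set.mem_setOf_eq, hc, code_n, okm_code, reachB_iff hn] at h2
    refine ⟨A, hA, h1.2, fun q u hu => ?_⟩
    by_contra hcon
    exact h2 ⟨hn, q, u, hu, hcon⟩

/-- The recognition of reset Mealy automata is in polynomial space. -/
theorem mem : InPSPACE (lang IsReset) := by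
  rw [lang_eq]
  exact inPSPACE_inter LA_mem (inPSPACE_compl LB_mem)

end Pool.Agent.R577.Reset
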